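import Pool.Agent.H110R3.Mu3
import Pool.Agent.H301X.FR.Asm
import Pool.Agent.H301X.FR.First
import Pool.Agent.H301X.FR.Smooth
import Pool.Agent.H301X.FR.Fenchel
import Pool.Agent.H301X.FR.Angle
import Pool.Agent.H301X.FR.Kappa

set_option autoImplicit false

open Real

namespace Pool.Agent.Results.MP_f07be6_gt.FrameLength

open Pool.Agent.H110R3.Mu Pool.Agent.H301X.FR

/-- Affirmative answer to Q2: for every `n ≥ 4` and every nondegenerate closed curve `γ` in `ℝⁿ`,
the length of the Frenet frame of `γ` is greater than `2π μ(n)`, where `μ(n)` is the least `m ≥ 1`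
such that every `C^∞` neighbourhood of the `m` times traversed plane unit circle of `ℝⁿ` contains a
nondegenerate closed curve. -/
theorem result (n : ℕ) (hn : 4 ≤ n) :
    ∃ μ : ℕ, IsLeast {m : ℕ | 1 ≤ m ∧ Perturbable n m} μ ∧
      ∀ γ : ℝ → EuclideanSpace ℝ (Fin n), IsClosedCurve γ → IsNondegenerate γ →
        2 * π * μ < frameLength γ := by
  refine ⟨1, ⟨⟨le_refl 1, perturb_one n hn⟩, fun _ hm => hm.1⟩, fun γ hc hnd => ?_⟩
  rw [Nat.cast_one, mul_one]
  exact main (taskFenchel' taskAngle') taskSmooth' taskFirst' taskKappa' hn γ hc hnd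

end Pool.Agent.Results.MP_f07be6_gt.FrameLength
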