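import Pool.Agent.H110R3.Mu3

set_option autoImplicit false

namespace Pool.Agent.Results.MP_f07be6_gt.MuIsOne

open Pool.Agent.H110R3.Mu

/-- For every `n ≥ 4` the number `μ(n)`, the least `m ≥ 1` such that every `C^∞` neighbourhood
of the `m` times traversed plane unit circle of `ℝⁿ` contains a nondegenerate closed curve,
is equal to `1`. -/
theorem result (n : ℕ) (hn : 4 ≤ n) : IsLeast {m : ℕ | 1 ≤ m ∧ Perturbable n m} 1 :=
  ⟨⟨le_refl 1, perturb_one n hn⟩, fun _ hm => hm.1⟩

end Pool.Agent.Results.MP_f07be6_gt.MuIsOne
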